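import Pool.Agent.V5helper28.KP.Stm

/-!
# Project KP, job SEP: the points of the words are separated
-/

set_option autoImplicit false

namespace Pool.Agent.V5helper43.KP

open MeasureTheory Set Metric
open Pool.Agent.V5helper28.SSK
open scoped ENNReal Pointwise

/-- small translates of a compact set of positive measure meet it in positive measure -/
theorem transl {d : ℕ} {V : Set (E d)} (hV : IsCompact V) (h0 : volume V ≠ 0) :
    ∃ κ : ℝ, 0 < κ ∧ ∀ z : E d, ‖z‖ < κ → volume (V ∩ (fun x => x + z) '' V) ≠ 0 := by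
  have hfin : volume V ≠ ∞ := hV.measure_lt_top.ne
  have hlt : volume V < volume V + volume V := ENNReal.lt_add_right hfin h0
  obtain ⟨O, hVO, hO, hOlt⟩ := Set.exists_isOpen_lt_of_lt V _ hlt
  obtain ⟨κ, hκ, hthick⟩ := hV.exists_thickening_subset_open hO hVO
  refine ⟨κ, hκ, fun z hz hzero => ?_⟩
  have h1 : (fun x => x + z) '' V ⊆ O := by
    rintro _ ⟨x, hx, rfl⟩
    apply hthick
    rw [mem_thickening_iff]
    refine ⟨x, hx, ?_⟩
    rw [dist_eq_norm]
    simpa using hz
  have hm : MeasurableSet ((fun x => x + z) '' V) :=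
    (hV.image (continuous_id.add continuous_const)).measurableSet
  have h2 := measure_union_add_inter (μ := (volume : Measure (E d))) V hm
  rw [hzero, add_zero] at h2
  have h3 : volume ((fun x => x + z) '' V) = volume V := by
    rw [Set.image_add_right, measure_preimage_add_right]
  rw [h3] at h2
  have h4 : volume (V ∪ (fun x => x + z) '' V) ≤ volume O := measure_mono (union_subset hVO h1)
  rw [h2] at h4
  exact absurd hOlt (not_lt.2 h4)

/-- homothetic images of sets of positive measure have positive measure -/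
theorem homoth {d : ℕ} (c : ℝ) (hc : 0 < c) (b : E d) (W : Set (E d))
    (h : volume ((fun x => c • x + b) '' W) = 0) : volume W = 0 := by
  have h1 : (fun x => c • x + b) '' W = (fun y => y + b) '' (c • W) := by
    rw [← Set.image_smul, Set.image_image]
  rw [h1, Set.image_add_right, measure_preimage_add_right, Measure.addHaar_smul] at h
  rcases mul_eq_zero.1 h with h2 | h2
  · exfalso
    rw [ENNReal.ofReal_eq_zero] at h2
    have h3 : 0 < |c ^ Module.finrank ℝ (E d)| := abs_pos.2 (pow_pos hc _).ne'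
    linarith
  · exact h2

/-- Job SEP. -/
theorem t_SEP : Pool.Agent.V5helper28.KP.S_SEP := by
  intro d I _ _ v r V hr hr1 hV h0 hnull
  obtain ⟨κ, hκ, hk⟩ := transl hV h0
  refine ⟨κ, hκ, ?_⟩
  intro n u u' hne
  by_contra hlt
  rw [not_le] at hlt
  have hrn : 0 < r ^ n := pow_pos hr n
  set z : E d := (r ^ n)⁻¹ • (X v r n u' - X v r n u) with hz
  have hzn : ‖z‖ < κ := by
    rw [hz, norm_smul, norm_inv, Real.norm_of_nonneg hrn.le, norm_sub_rev, inv_mul_lt_iff₀ hrn]
    rw [mul_comm]
    exact hlt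
  have hrz : r ^ n • z = X v r n u' - X v r n u := by
    rw [hz, smul_smul, mul_inv_cancel₀ hrn.ne', one_smul]
  refine hk z hzn (homoth (r ^ n) hrn (X v r n u) _ ?_)
  refine measure_mono_null ?_ (hnull n u u' hne)
  rintro _ ⟨x, ⟨hx1, ⟨y, hy, hyx⟩⟩, rfl⟩
  refine ⟨⟨x, hx1, rfl⟩, ⟨y, hy, ?_⟩⟩
  have hyx' : y + z = x := hyx
  show r ^ n • y + X v r n u' = r ^ n • x + X v r n u
  rw [← hyx', smul_add, hrz]
  abel

end Pool.Agent.V5helper43.KP
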